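import Mathlib

/-!
# Areas of affine images of planar sets in three-space
-/

set_option autoImplicit false

open MeasureTheory Measure Set Module
open scoped Pointwise ENNReal

namespace Pool.Agent.Q157.AS

abbrev E (n : ℕ) := EuclideanSpace ℝ (Fin n)

/-- the linear map `z ↦ z₀ a + z₁ b` -/
noncomputable def par {F : Type*} [AddCommGroup F] [Module ℝ F] (a b : F) : E 2 →ₗ[ℝ] F where
  toFun z := z 0 • a + z 1 • b
  map_add' x y := by
    simp only [PiLp.add_apply, add_smul]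
    abel
  map_smul' c x := by
    simp only [PiLp.smul_apply, smul_eq_mul, RingHom.id_apply, smul_add, mul_smul]

lemma par_app {F : Type*} [AddCommGroup F] [Module ℝ F] (a b : F) (z : E 2) :
    par a b z = z 0 • a + z 1 • b := rfl

/-- the area of the parallelogram -/
noncomputable def gr {F : Type*} [NormedAddCommGroup F] [InnerProductSpace ℝ F] (a b : F) : ℝ :=
  Real.sqrt (‖a‖ ^ 2 * ‖b‖ ^ 2 - (inner ℝ a b) ^ 2)

lemma det_par (a b : E 2) : |LinearMap.det (par a b)| = gr a b := by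
  have h1 : LinearMap.det (par a b) = a 0 * b 1 - a 1 * b 0 := by
    rw [← LinearMap.det_toMatrix (EuclideanSpace.basisFun (Fin 2) ℝ).toBasis,
      Matrix.det_fin_two]
    simp [LinearMap.toMatrix_apply, par_app]
    ring
  unfold gr
  rw [h1, EuclideanSpace.norm_sq_eq, EuclideanSpace.norm_sq_eq, PiLp.inner_apply,
    Fin.sum_univ_two, Fin.sum_univ_two, Fin.sum_univ_two]
  simp only [Real.norm_eq_abs, sq_abs, RCLike.inner_apply, conj_trivial]
  rw [← Real.sqrt_sq_eq_abs]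
  congr 1
  ring

theorem area_par {a b : E 3} (h : LinearIndependent ℝ ![a, b]) (D : Set (E 2)) :
    (μHE[2] : Measure (E 3)) (par a b '' D) = ENNReal.ofReal (gr a b) * volume D := by
  set P : Submodule ℝ (E 3) := Submodule.span ℝ (range ![a, b]) with hP
  have hr : finrank ℝ P = 2 := by
    rw [hP, finrank_span_eq_card h]
    simp
  have haP : a ∈ P := Submodule.subset_span ⟨0, rfl⟩
  have hbP : b ∈ P := Submodule.subset_span ⟨1, rfl⟩
  set B : OrthonormalBasis (Fin 2) ℝ P :=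
    (stdOrthonormalBasis ℝ P).reindex (finCongr hr) with hB
  set ι : E 2 →ₗᵢ[ℝ] E 3 := P.subtypeₗᵢ.comp B.repr.symm.toLinearIsometry with hι
  set a' : E 2 := B.repr ⟨a, haP⟩ with ha'
  set b' : E 2 := B.repr ⟨b, hbP⟩ with hb'
  have ea : ι a' = a := by simp [hι, ha']
  have eb : ι b' = b := by simp [hι, hb']
  have e1 : par a b '' D = ι '' (par a' b' '' D) := by
    rw [image_image]
    refine image_congr fun z _ => ?_
    rw [par_app, par_app, map_add, map_smul, map_smul, ea, eb]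
  rw [e1, ι.isometry.euclideanHausdorffMeasure_image,
    EuclideanSpace.euclideanHausdorffMeasure_eq_volume, Measure.addHaar_image_linearMap, det_par]
  congr 2
  unfold gr
  rw [← ea, ← eb, ι.norm_map, ι.norm_map, ι.inner_map_map]

/-- the open triangle -/
def Tr : Set (E 2) := {z | 0 < z 0 ∧ 0 < z 1 ∧ z 0 + z 1 < 1}

/-- the closed triangle -/
def TrC : Set (E 2) := {z | 0 ≤ z 0 ∧ 0 ≤ z 1 ∧ z 0 + z 1 ≤ 1}

lemma Tr_convex : Convex ℝ Tr := by
  intro x hx y hy a b ha hb hab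
  obtain ⟨x0, x1, x2⟩ := hx
  obtain ⟨y0, y1, y2⟩ := hy
  simp only [Tr, mem_ofPred_eq, PiLp.add_apply, PiLp.smul_apply, smul_eq_mul]
  rcases ha.eq_or_lt with rfl | ha'
  · have : b = 1 := by linarith
    subst this
    simp only [zero_mul, zero_add, one_mul]
    exact ⟨y0, y1, y2⟩
  · refine ⟨by positivity, by positivity, ?_⟩
    nlinarith

lemma TrC_closure : TrC ⊆ closure Tr := by
  intro x hx
  obtain ⟨x0, x1, x2⟩ := hx
  set c : E 2 := WithLp.toLp 2 ![1 / 3, 1 / 3] with hc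
  have hc0 : c 0 = 1 / 3 := rfl
  have hc1 : c 1 = 1 / 3 := rfl
  rw [mem_closure_iff_seq_limit]
  refine ⟨fun k : ℕ => x + (1 / ((k : ℝ) + 1)) • (c - x), fun k => ?_, ?_⟩
  · have hk : 0 < 1 / ((k : ℝ) + 1) := by positivity
    have hk1 : 1 / ((k : ℝ) + 1) ≤ 1 := by
      rw [div_le_one (by positivity)]
      have : (0:ℝ) ≤ k := Nat.cast_nonneg k
      linarith
    simp only [Tr, mem_ofPred_eq, PiLp.add_apply, PiLp.smul_apply, PiLp.sub_apply, smul_eq_mul,
      hc0, hc1]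
    refine ⟨?_, ?_, ?_⟩ <;> nlinarith
  · have h1 : Filter.Tendsto (fun k : ℕ => 1 / ((k : ℝ) + 1)) Filter.atTop (nhds 0) :=
      tendsto_one_div_add_atTop_nhds_zero_nat
    have h2 := (h1.smul_const (c - x)).const_add x
    simpa using h2

lemma vol_TrC : volume TrC = volume Tr := by
  apply le_antisymm
  · calc volume TrC ≤ volume (closure Tr) := measure_mono TrC_closure
      _ ≤ volume (Tr ∪ frontier Tr) := by
          apply measure_mono
          rw [closure_eq_self_union_frontier]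
      _ ≤ volume Tr + volume (frontier Tr) := measure_union_le _ _
      _ = volume Tr := by rw [Tr_convex.addHaar_frontier volume, add_zero]
  · exact measure_mono fun z hz => ⟨hz.1.le, hz.2.1.le, hz.2.2.le⟩

/-- the area of the triangle -/
noncomputable def tau : ℝ≥0∞ := volume Tr

lemma tau_ne_top : tau ≠ ⊤ := by
  have h1 : Tr ⊆ Metric.closedBall 0 2 := by
    rintro z ⟨h0, h1, h2⟩
    rw [mem_closedBall_zero_iff, EuclideanSpace.norm_eq, Real.sqrt_le_left (by norm_num),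
      Fin.sum_univ_two]
    simp only [Real.norm_eq_abs, sq_abs]
    nlinarith
  exact ((measure_mono h1).trans_lt (isCompact_closedBall _ _).measure_lt_top).ne

lemma tau_pos : 0 < tau := by
  have ho : IsOpen Tr := by
    have h0 : Continuous fun z : E 2 => z 0 := by fun_prop
    have h1 : Continuous fun z : E 2 => z 1 := by fun_prop
    exact (isOpen_lt continuous_const h0).inter
      ((isOpen_lt continuous_const h1).inter (isOpen_lt (h0.add h1) continuous_const))
  refine ho.measure_pos volume ⟨WithLp.toLp 2 ![1 / 3, 1 / 3], ?_⟩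
  simp only [Tr, mem_ofPred_eq]
  norm_num

lemma vol_smul (r : ℝ) (hr : 0 ≤ r) (D : Set (E 2)) :
    volume (r • D) = ENNReal.ofReal (r ^ 2) * volume D := by
  rw [Measure.addHaar_smul, finrank_euclideanSpace_fin, abs_of_nonneg (by positivity)]

lemma Tr_meas : MeasurableSet Tr := by
  have h0 : Continuous fun z : E 2 => z 0 := by fun_prop
  have h1 : Continuous fun z : E 2 => z 1 := by fun_prop
  exact ((isOpen_lt continuous_const h0).inter
      ((isOpen_lt continuous_const h1).inter (isOpen_lt (h0.add h1) continuous_const))).measurableSet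

/-- the hexagon -/
def Hx (δ : ℝ) : Set (E 2) := {z | 0 ≤ z 0 ∧ 0 ≤ z 1 ∧ z 0 + z 1 ≤ 1 ∧ z 0 ≤ 1 - δ ∧ z 1 ≤ 1 - δ ∧
  δ ≤ z 0 + z 1}

/-- the corner triangles -/
def Cn (δ : ℝ) (p : E 2) : Set (E 2) := (fun z => p + z) '' (δ • Tr)

lemma mem_Cn {δ : ℝ} (hδ : 0 < δ) {p z : E 2} : z ∈ Cn δ p ↔
    p 0 < z 0 ∧ p 1 < z 1 ∧ (z 0 - p 0) + (z 1 - p 1) < δ := by
  unfold Cn
  constructor
  · rintro ⟨_, ⟨y, ⟨h0, h1, h2⟩, rfl⟩, rfl⟩
    simp only [PiLp.add_apply, PiLp.smul_apply, smul_eq_mul]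
    refine ⟨by nlinarith, by nlinarith, by nlinarith⟩
  · rintro ⟨h0, h1, h2⟩
    refine ⟨z - p, ⟨δ⁻¹ • (z - p), ⟨?_, ?_, ?_⟩, ?_⟩, by simp⟩
    · simp only [PiLp.smul_apply, PiLp.sub_apply, smul_eq_mul]
      have : 0 < z 0 - p 0 := by linarith
      positivity
    · simp only [PiLp.smul_apply, PiLp.sub_apply, smul_eq_mul]
      have : 0 < z 1 - p 1 := by linarith
      positivity
    · simp only [PiLp.smul_apply, PiLp.sub_apply, smul_eq_mul]
      rw [← mul_add, inv_mul_lt_iff₀ hδ]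
      linarith
    · exact smul_inv_smul₀ hδ.ne' _

lemma vol_Cn {δ : ℝ} (hδ : 0 < δ) (p : E 2) : volume (Cn δ p) = ENNReal.ofReal (δ ^ 2) * tau := by
  unfold Cn
  rw [image_add_left, measure_preimage_add, vol_smul _ hδ.le]
  rfl

lemma Cn_meas {δ : ℝ} (hδ : 0 < δ) (p : E 2) : MeasurableSet (Cn δ p) := by
  unfold Cn
  rw [image_add_left]
  exact (Tr_meas.const_smul₀ δ).preimage (measurable_const_add _)

lemma vol_Hx {δ : ℝ} (hδ : 0 < δ) (hδ2 : δ < 1 / 2) :
    volume (Hx δ) ≤ ENNReal.ofReal (1 - 3 * δ ^ 2) * tau := by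
  set p1 : E 2 := WithLp.toLp 2 ![1 - δ, 0] with hp1
  set p2 : E 2 := WithLp.toLp 2 ![0, 1 - δ] with hp2
  have a0 : p1 0 = 1 - δ := rfl
  have a1 : p1 1 = 0 := rfl
  have b0 : p2 0 = 0 := rfl
  have b1 : p2 1 = 1 - δ := rfl
  have c0 : (0 : E 2) 0 = 0 := rfl
  have c1 : (0 : E 2) 1 = 0 := rfl
  have hsub : Hx δ ∪ Cn δ p1 ∪ Cn δ p2 ∪ Cn δ 0 ⊆ TrC := by
    rintro z (((h | h) | h) | h)
    · exact ⟨h.1, h.2.1, h.2.2.1⟩
    · rw [mem_Cn hδ, a0, a1] at h
      exact ⟨by linarith, by linarith, by linarith⟩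
    · rw [mem_Cn hδ, b0, b1] at h
      exact ⟨by linarith, by linarith, by linarith⟩
    · rw [mem_Cn hδ, c0, c1] at h
      exact ⟨by linarith, by linarith, by linarith⟩
  have d1 : Disjoint (Hx δ) (Cn δ p1) := by
    rw [Set.disjoint_left]
    rintro z h h'
    rw [mem_Cn hδ, a0, a1] at h'
    linarith [h.2.2.2.1]
  have d2 : Disjoint (Hx δ ∪ Cn δ p1) (Cn δ p2) := by
    rw [Set.disjoint_left]
    rintro z (h | h) h'
    · rw [mem_Cn hδ, b0, b1] at h'
      linarith [h.2.2.2.2.1]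
    · rw [mem_Cn hδ, b0, b1] at h'
      rw [mem_Cn hδ, a0, a1] at h
      linarith
  have d3 : Disjoint (Hx δ ∪ Cn δ p1 ∪ Cn δ p2) (Cn δ 0) := by
    rw [Set.disjoint_left]
    rintro z ((h | h) | h) h'
    · rw [mem_Cn hδ, c0, c1] at h'
      linarith [h.2.2.2.2.2]
    · rw [mem_Cn hδ, c0, c1] at h'
      rw [mem_Cn hδ, a0, a1] at h
      linarith
    · rw [mem_Cn hδ, c0, c1] at h'
      rw [mem_Cn hδ, b0, b1] at h
      linarith
  have h1 := measure_mono (μ := (volume : Measure (E 2))) hsub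
  rw [measure_union d3 (Cn_meas hδ 0), measure_union d2 (Cn_meas hδ p2),
    measure_union d1 (Cn_meas hδ p1), vol_Cn hδ, vol_Cn hδ, vol_Cn hδ, vol_TrC] at h1
  change _ ≤ tau at h1
  have ht := tau_ne_top
  have hHt : volume (Hx δ) ≠ ⊤ := by
    refine ne_top_of_le_ne_top ht ((le_trans ?_ h1))
    rw [add_assoc, add_assoc]
    exact le_self_add
  rw [← ENNReal.toReal_le_toReal hHt (ENNReal.mul_ne_top ENNReal.ofReal_ne_top ht),
    ENNReal.toReal_mul, ENNReal.toReal_ofReal (by nlinarith)]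
  have hm : ENNReal.ofReal (δ ^ 2) * tau ≠ ⊤ := ENNReal.mul_ne_top ENNReal.ofReal_ne_top ht
  have h2 := ENNReal.toReal_mono ht h1
  rw [ENNReal.toReal_add (ENNReal.add_ne_top.2 ⟨ENNReal.add_ne_top.2 ⟨hHt, hm⟩, hm⟩) hm,
    ENNReal.toReal_add (ENNReal.add_ne_top.2 ⟨hHt, hm⟩) hm, ENNReal.toReal_add hHt hm,
    ENNReal.toReal_mul, ENNReal.toReal_ofReal (by positivity)] at h2
  linarith

/-- the square -/
def Dm (δ : ℝ) : Set (E 2) := {z | |z 0| + |z 1| ≤ δ}

lemma vol_Dm {δ : ℝ} (hδ : 0 < δ) : volume (Dm δ) ≤ ENNReal.ofReal (4 * δ ^ 2) * tau := by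
  have h1 : ∀ s t : ℝ, s ^ 2 = 1 → t ^ 2 = 1 →
      volume (par (WithLp.toLp 2 ![s, 0] : E 2) (WithLp.toLp 2 ![0, t]) '' (δ • TrC)) =
        ENNReal.ofReal (δ ^ 2) * tau := by
    intro s t hs ht
    rw [Measure.addHaar_image_linearMap, det_par, vol_smul _ hδ.le, vol_TrC]
    have : gr (WithLp.toLp 2 ![s, 0] : E 2) (WithLp.toLp 2 ![0, t]) = 1 := by
      unfold gr
      rw [EuclideanSpace.norm_sq_eq, EuclideanSpace.norm_sq_eq, PiLp.inner_apply,
        Fin.sum_univ_two, Fin.sum_univ_two, Fin.sum_univ_two]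
      simp [hs, ht]
    rw [this, ENNReal.ofReal_one, one_mul]
    rfl
  have hsub : Dm δ ⊆ (par (WithLp.toLp 2 ![1, 0] : E 2) (WithLp.toLp 2 ![0, 1]) '' (δ • TrC) ∪
      par (WithLp.toLp 2 ![1, 0] : E 2) (WithLp.toLp 2 ![0, -1]) '' (δ • TrC)) ∪
      (par (WithLp.toLp 2 ![-1, 0] : E 2) (WithLp.toLp 2 ![0, 1]) '' (δ • TrC) ∪
      par (WithLp.toLp 2 ![-1, 0] : E 2) (WithLp.toLp 2 ![0, -1]) '' (δ • TrC)) := by
    intro z hz
    have hz' : |z 0| + |z 1| ≤ δ := hz
    have key : ∀ s t : ℝ, s * z 0 = |z 0| → t * z 1 = |z 1| → s * s = 1 → t * t = 1 →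
        z ∈ par (WithLp.toLp 2 ![s, 0] : E 2) (WithLp.toLp 2 ![0, t]) '' (δ • TrC) := by
      intro s t h1 h2 h3 h4
      refine ⟨WithLp.toLp 2 ![|z 0|, |z 1|], ⟨δ⁻¹ • WithLp.toLp 2 ![|z 0|, |z 1|], ⟨?_, ?_, ?_⟩,
        smul_inv_smul₀ hδ.ne' _⟩, ?_⟩
      · simp only [PiLp.smul_apply, smul_eq_mul]
        have := abs_nonneg (z 0)
        simp
        positivity
      · simp only [PiLp.smul_apply, smul_eq_mul]
        simp
        positivity
      · simp only [PiLp.smul_apply, smul_eq_mul]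
        rw [← mul_add, inv_mul_le_iff₀ hδ]
        simpa using hz'
      · rw [par_app]
        ext i
        fin_cases i
        · simp [← h1]
          rw [mul_assoc, mul_comm (z 0) s, ← mul_assoc, h3, one_mul]
        · simp [← h2]
          rw [mul_assoc, mul_comm (z 1) t, ← mul_assoc, h4, one_mul]
    rcases le_total 0 (z 0) with h0 | h0 <;> rcases le_total 0 (z 1) with h1 | h1
    · exact Or.inl (Or.inl (key 1 1 (by rw [abs_of_nonneg h0]; ring)
        (by rw [abs_of_nonneg h1]; ring) (by ring) (by ring)))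
    · exact Or.inl (Or.inr (key 1 (-1) (by rw [abs_of_nonneg h0]; ring)
        (by rw [abs_of_nonpos h1]; ring) (by ring) (by ring)))
    · exact Or.inr (Or.inl (key (-1) 1 (by rw [abs_of_nonpos h0]; ring)
        (by rw [abs_of_nonneg h1]; ring) (by ring) (by ring)))
    · exact Or.inr (Or.inr (key (-1) (-1) (by rw [abs_of_nonpos h0]; ring)
        (by rw [abs_of_nonpos h1]; ring) (by ring) (by ring)))
  refine (measure_mono hsub).trans ((measure_union_le _ _).trans ?_)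
  refine (add_le_add (measure_union_le _ _) (measure_union_le _ _)).trans ?_
  rw [h1 1 1 (by norm_num) (by norm_num), h1 1 (-1) (by norm_num) (by norm_num),
    h1 (-1) 1 (by norm_num) (by norm_num), h1 (-1) (-1) (by norm_num) (by norm_num)]
  have e : ENNReal.ofReal (4 * δ ^ 2) = 4 * ENNReal.ofReal (δ ^ 2) := by
    rw [ENNReal.ofReal_mul (by norm_num)]
    norm_num
  rw [e]
  apply le_of_eq
  ring

end Pool.Agent.Q157.AS
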