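import Pool.Agent.Q157.AS.A

set_option autoImplicit false

open MeasureTheory Measure Set Module
open scoped Pointwise ENNReal

namespace Pool.Agent.Q157.AS

/-- Hlawka's inequality -/
theorem hlawka {V : Type*} [NormedAddCommGroup V] [InnerProductSpace ℝ V] (x y z : V) :
    ‖x + y‖ + ‖y + z‖ + ‖z + x‖ ≤ ‖x + y + z‖ + ‖x‖ + ‖y‖ + ‖z‖ := by
  set a := ‖x‖ with ha
  set b := ‖y‖ with hb
  set c := ‖z‖ with hc
  set d := ‖x + y + z‖ with hd
  set p := ‖x + y‖ with hp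
  set q := ‖y + z‖ with hq
  set r := ‖z + x‖ with hr
  have h1 : a ^ 2 + b ^ 2 + c ^ 2 + d ^ 2 = p ^ 2 + q ^ 2 + r ^ 2 := by
    have e1 := norm_add_sq_real x y
    have e2 := norm_add_sq_real y z
    have e3 := norm_add_sq_real z x
    have e4 := norm_add_sq_real (x + y) z
    rw [inner_add_left] at e4
    rw [real_inner_comm] at e3
    rw [ha, hb, hc, hd, hp, hq, hr, e4, e1, e2, e3]
    ring
  have t1 : p ≤ a + b := norm_add_le _ _
  have t2 : q ≤ b + c := norm_add_le _ _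
  have t3 : r ≤ c + a := norm_add_le _ _
  have t4 : p ≤ c + d := by
    have := norm_sub_le (x + y + z) z
    rw [add_sub_cancel_right] at this
    linarith
  have t5 : q ≤ a + d := by
    have := norm_sub_le (x + y + z) x
    have e : x + y + z - x = y + z := by abel
    rw [e] at this
    linarith
  have t6 : r ≤ b + d := by
    have := norm_sub_le (x + y + z) y
    have e : x + y + z - y = z + x := by abel
    rw [e] at this
    linarith
  have a0 : 0 ≤ a := norm_nonneg _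
  have b0 : 0 ≤ b := norm_nonneg _
  have c0 : 0 ≤ c := norm_nonneg _
  have d0 : 0 ≤ d := norm_nonneg _
  have p0 : 0 ≤ p := norm_nonneg _
  have q0 : 0 ≤ q := norm_nonneg _
  have r0 : 0 ≤ r := norm_nonneg _
  have k1 : 0 ≤ (a + b - p) * (c + d - p) := mul_nonneg (by linarith) (by linarith)
  have k2 : 0 ≤ (b + c - q) * (a + d - q) := mul_nonneg (by linarith) (by linarith)
  have k3 : 0 ≤ (c + a - r) * (b + d - r) := mul_nonneg (by linarith) (by linarith)
  have k4 : 0 ≤ (a + b + c + d) * (a + b + c + d - (p + q + r)) := by nlinarith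
  rcases (show 0 ≤ a + b + c + d by positivity).eq_or_lt with h0 | h0
  · linarith
  · have := nonneg_of_mul_nonneg_right k4 h0
    linarith

/-- the form used for the octahedron -/
theorem hlawka8 {V : Type*} [NormedAddCommGroup V] [InnerProductSpace ℝ V] (X Y Z : V) :
    2 * (‖X‖ + ‖Y‖ + ‖Z‖) ≤ ‖X + Y + Z‖ + ‖-X + Y + Z‖ + ‖X - Y + Z‖ + ‖X + Y - Z‖ := by
  have h := hlawka (-X + Y + Z) (X - Y + Z) (X + Y - Z)
  have e1 : (-X + Y + Z) + (X - Y + Z) = (2 : ℝ) • Z := by module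
  have e2 : (X - Y + Z) + (X + Y - Z) = (2 : ℝ) • X := by module
  have e3 : (X + Y - Z) + (-X + Y + Z) = (2 : ℝ) • Y := by module
  have e4 : (-X + Y + Z) + (X - Y + Z) + (X + Y - Z) = X + Y + Z := by module
  rw [e4, e1, e2, e3, norm_smul, norm_smul, norm_smul, Real.norm_eq_abs,
    abs_of_pos (by norm_num : (0:ℝ) < 2)] at h
  linarith

/-- the cross product -/
noncomputable def cr (a b : E 3) : E 3 :=
  WithLp.toLp 2 ![a 1 * b 2 - a 2 * b 1, a 2 * b 0 - a 0 * b 2, a 0 * b 1 - a 1 * b 0]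

lemma norm_cr (a b : E 3) : ‖cr a b‖ = gr a b := by
  unfold gr
  rw [EuclideanSpace.norm_eq, EuclideanSpace.norm_sq_eq, EuclideanSpace.norm_sq_eq,
    PiLp.inner_apply]
  congr 1
  simp only [cr, Fin.sum_univ_three, Real.norm_eq_abs, sq_abs, RCLike.inner_apply, conj_trivial]
  simp
  ring

lemma cr_signs (v0 v1 v2 : E 3) {s0 s1 s2 : ℝ} (h0 : s0 * s0 = 1) (h1 : s1 * s1 = 1)
    (h2 : s2 * s2 = 1) :
    cr (s1 • v1 - s0 • v0) (s2 • v2 - s0 • v0) =
      (s0 * s1 * s2) • (s0 • cr v1 v2 + s1 • cr v2 v0 + s2 • cr v0 v1) := by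
  ext i
  fin_cases i
  · simp [cr]
    linear_combination (-(s1 * s2) * (v1 1 * v2 2 - v1 2 * v2 1)) * h0 +
      (-(s0 * s2) * (v2 1 * v0 2 - v2 2 * v0 1)) * h1 +
      (-(s0 * s1) * (v0 1 * v1 2 - v0 2 * v1 1)) * h2
  · simp [cr]
    linear_combination (-(s1 * s2) * (v1 2 * v2 0 - v1 0 * v2 2)) * h0 +
      (-(s0 * s2) * (v2 2 * v0 0 - v2 0 * v0 2)) * h1 +
      (-(s0 * s1) * (v0 2 * v1 0 - v0 0 * v1 2)) * h2
  · simp [cr]
    linear_combination (-(s1 * s2) * (v1 0 * v2 1 - v1 1 * v2 0)) * h0 +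
      (-(s0 * s2) * (v2 0 * v0 1 - v2 1 * v0 0)) * h1 +
      (-(s0 * s1) * (v0 0 * v1 1 - v0 1 * v1 0)) * h2

lemma gr_signs (v0 v1 v2 : E 3) {s0 s1 s2 : ℝ} (h0 : s0 * s0 = 1) (h1 : s1 * s1 = 1)
    (h2 : s2 * s2 = 1) :
    gr (s1 • v1 - s0 • v0) (s2 • v2 - s0 • v0) =
      ‖s0 • cr v1 v2 + s1 • cr v2 v0 + s2 • cr v0 v1‖ := by
  rw [← norm_cr, cr_signs v0 v1 v2 h0 h1 h2, norm_smul]
  have : ‖s0 * s1 * s2‖ = 1 := by
    rw [Real.norm_eq_abs, ← sq_eq_sq₀ (abs_nonneg _) zero_le_one, sq_abs]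
    calc (s0 * s1 * s2) ^ 2 = (s0 * s0) * (s1 * s1) * (s2 * s2) := by ring
      _ = 1 ^ 2 := by rw [h0, h1, h2]; norm_num
  rw [this, one_mul]

/-- the sign of a Boolean -/
def sg (b : Bool) : ℝ := if b then 1 else -1

lemma sg_sq (b : Bool) : sg b * sg b = 1 := by
  cases b <;> simp [sg]

/-- the sum over the facets of the octahedron -/
noncomputable def G8 (v0 v1 v2 : E 3) : ℝ :=
  ∑ s : Bool × Bool × Bool,
    gr (sg s.2.1 • v1 - sg s.1 • v0) (sg s.2.2 • v2 - sg s.1 • v0)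

theorem G8_ge (v0 v1 v2 : E 3) : 4 * (gr v1 v2 + gr v2 v0 + gr v0 v1) ≤ G8 v0 v1 v2 := by
  have h := hlawka8 (cr v1 v2) (cr v2 v0) (cr v0 v1)
  unfold G8
  have e : ∀ s : Bool × Bool × Bool, gr (sg s.2.1 • v1 - sg s.1 • v0)
      (sg s.2.2 • v2 - sg s.1 • v0) =
      ‖sg s.1 • cr v1 v2 + sg s.2.1 • cr v2 v0 + sg s.2.2 • cr v0 v1‖ := fun s =>
    gr_signs v0 v1 v2 (sg_sq _) (sg_sq _) (sg_sq _)
  simp_rw [e]
  rw [Fintype.sum_prod_type]
  simp only [Fintype.sum_prod_type, Fintype.sum_bool]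
  simp only [sg, if_true, Bool.false_eq_true, if_false, one_smul, neg_smul]
  rw [← norm_cr, ← norm_cr, ← norm_cr]
  set X := cr v1 v2
  set Y := cr v2 v0
  set Z := cr v0 v1
  have k1 : ‖-X + -Y + -Z‖ = ‖X + Y + Z‖ := by
    rw [← norm_neg]; congr 1; abel
  have k2 : ‖-X + -Y + Z‖ = ‖X + Y - Z‖ := by
    rw [← norm_neg]; congr 1; abel
  have k3 : ‖-X + Y + -Z‖ = ‖X - Y + Z‖ := by
    rw [← norm_neg]; congr 1; abel
  have k4 : ‖X + -Y + -Z‖ = ‖-X + Y + Z‖ := by
    rw [← norm_neg]; congr 1; abel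
  have k5 : ‖X + Y + -Z‖ = ‖X + Y - Z‖ := by congr 1
  have k6 : ‖X + -Y + Z‖ = ‖X - Y + Z‖ := by congr 1
  rw [k1, k2, k3, k4, k5, k6]
  linarith

/-! ### facets -/

/-- the basis vectors -/
noncomputable def ee (i : Fin 3) : E 3 := EuclideanSpace.single i 1

lemma facet (A : E 3 ≃ᵃ[ℝ] E 3) (p a b : E 3) (h : LinearIndependent ℝ ![a, b])
    (D : Set (E 2)) :
    (μHE[2] : Measure (E 3)) (A '' ((fun z => par a b z + p) '' D)) =
      ENNReal.ofReal (gr (A.linear a) (A.linear b)) * volume D := by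
  have h' : LinearIndependent ℝ ![A.linear a, A.linear b] := by
    rw [LinearIndependent.pair_iff] at h ⊢
    intro x y hxy
    apply h
    apply A.linear.injective
    rw [map_add, map_smul, map_smul, hxy, map_zero]
  rw [← area_par h' D, image_image]
  have e : (fun x => A (par a b x + p)) '' D =
      (fun y => y + A p) '' (par (A.linear a) (A.linear b) '' D) := by
    rw [image_image]
    refine image_congr fun z _ => ?_
    rw [← vadd_eq_add, A.map_vadd, vadd_eq_add, par_app, par_app]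
    simp
  rw [e]
  exact (isometry_add_right (A p)).euclideanHausdorffMeasure_image _

/-- the set parametrised by `D` in the plane of the facet with signs `s` -/
noncomputable def fs (s0 s1 s2 r : ℝ) (D : Set (E 2)) : Set (E 3) :=
  (fun z => par (s1 • ee 1 - s0 • ee 0) (s2 • ee 2 - s0 • ee 0) z + (r * s0) • ee 0) '' D

lemma fs_indep {s0 s1 s2 : ℝ} (h1 : s1 * s1 = 1) (h2 : s2 * s2 = 1) :
    LinearIndependent ℝ ![s1 • ee 1 - s0 • ee 0, s2 • ee 2 - s0 • ee 0] := by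
  rw [LinearIndependent.pair_iff]
  intro x y hxy
  have k1 := congrArg (fun v : E 3 => v 1) hxy
  have k2 := congrArg (fun v : E 3 => v 2) hxy
  simp [ee] at k1 k2
  constructor
  · rcases k1 with k | k
    · exact k
    · rw [k] at h1; simp at h1
  · rcases k2 with k | k
    · exact k
    · rw [k] at h2; simp at h2

lemma mem_fs {s0 s1 s2 r : ℝ} (h0 : s0 * s0 = 1) (h1 : s1 * s1 = 1) (h2 : s2 * s2 = 1)
    {D : Set (E 2)} {x : E 3} :
    x ∈ fs s0 s1 s2 r D ↔ (WithLp.toLp 2 ![s1 * x 1, s2 * x 2] : E 2) ∈ D ∧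
      s0 * x 0 + s1 * x 1 + s2 * x 2 = r := by
  have hc : ∀ z : E 2, ∀ i, (par (s1 • ee 1 - s0 • ee 0) (s2 • ee 2 - s0 • ee 0) z +
      (r * s0) • ee 0) i = ![s0 * (r - z 0 - z 1), s1 * z 0, s2 * z 1] i := by
    intro z i
    fin_cases i
    · simp [par_app, ee]; ring
    · simp [par_app, ee]; ring
    · simp [par_app, ee]; ring
  unfold fs
  constructor
  · rintro ⟨z, hz, rfl⟩
    have c0 := hc z 0
    have c1 := hc z 1
    have c2 := hc z 2
    simp only at c0 c1 c2 ⊢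
    rw [c0, c1, c2]
    simp only [Matrix.cons_val_zero, Matrix.cons_val_one, Matrix.cons_val]
    constructor
    · have e : (WithLp.toLp 2 ![s1 * (s1 * z 0), s2 * (s2 * z 1)] : E 2) = z := by
        ext i
        fin_cases i
        · simp [← mul_assoc, h1]
        · simp [← mul_assoc, h2]
      rw [e]
      exact hz
    · linear_combination (r - z 0 - z 1) * h0 + z 0 * h1 + z 1 * h2
  · rintro ⟨hD, hs⟩
    refine ⟨_, hD, ?_⟩
    ext i
    simp only
    rw [hc]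
    fin_cases i
    · simp
      linear_combination (-s0) * hs + (x 0) * h0
    · simp
      rw [← mul_assoc, h1, one_mul]
    · simp
      rw [← mul_assoc, h2, one_mul]

lemma vol_fs (A : E 3 ≃ᵃ[ℝ] E 3) {s0 s1 s2 : ℝ} (r : ℝ) (h1 : s1 * s1 = 1) (h2 : s2 * s2 = 1)
    (D : Set (E 2)) :
    (μHE[2] : Measure (E 3)) (A '' fs s0 s1 s2 r D) = ENNReal.ofReal
      (gr (s1 • A.linear (ee 1) - s0 • A.linear (ee 0))
        (s2 • A.linear (ee 2) - s0 • A.linear (ee 0))) * volume D := by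
  unfold fs
  rw [facet A _ _ _ (fs_indep h1 h2)]
  simp only [map_sub, map_smul]

/-- the octahedron -/
def oct (r : ℝ) : Set (E 3) := {x | |x 0| + |x 1| + |x 2| ≤ r}

/-- the open facet -/
def fo (s : Bool × Bool × Bool) (r : ℝ) : Set (E 3) :=
  {x | 0 < sg s.1 * x 0 ∧ 0 < sg s.2.1 * x 1 ∧ 0 < sg s.2.2 * x 2 ∧
    sg s.1 * x 0 + sg s.2.1 * x 1 + sg s.2.2 * x 2 = r}

lemma mem_smul_Tr {r : ℝ} (hr : 0 < r) {z : E 2} :
    z ∈ r • Tr ↔ 0 < z 0 ∧ 0 < z 1 ∧ z 0 + z 1 < r := by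
  have h := mem_Cn hr (p := 0) (z := z)
  have e : Cn r 0 = r • Tr := by unfold Cn; simp
  rw [e] at h
  rw [h]
  have c0 : (0 : E 2) 0 = 0 := rfl
  have c1 : (0 : E 2) 1 = 0 := rfl
  rw [c0, c1, sub_zero, sub_zero]

lemma fo_eq {r : ℝ} (hr : 0 < r) (s : Bool × Bool × Bool) :
    fo s r = fs (sg s.1) (sg s.2.1) (sg s.2.2) r (r • Tr) := by
  ext x
  rw [mem_fs (sg_sq _) (sg_sq _) (sg_sq _), mem_smul_Tr hr]
  simp only [fo, mem_ofPred_eq]
  simp only [Matrix.cons_val_zero, Matrix.cons_val_one]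
  constructor
  · rintro ⟨a, b, c, d⟩
    exact ⟨⟨b, c, by linarith⟩, d⟩
  · rintro ⟨⟨b, c, e⟩, d⟩
    exact ⟨by linarith, b, c, d⟩

lemma fo_disj {r : ℝ} {s t : Bool × Bool × Bool} (h : s ≠ t) : Disjoint (fo s r) (fo t r) := by
  rw [Set.disjoint_left]
  rintro x ⟨a0, a1, a2, _⟩ ⟨b0, b1, b2, _⟩
  apply h
  have key : ∀ (b c : Bool) (y : ℝ), 0 < sg b * y → 0 < sg c * y → b = c := by
    intro b c y hb hc
    cases b <;> cases c <;> simp [sg] at hb hc ⊢ <;> linarith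
  exact Prod.ext (key _ _ _ a0 b0) (Prod.ext (key _ _ _ a1 b1) (key _ _ _ a2 b2))

lemma fo_meas (s : Bool × Bool × Bool) (r : ℝ) : MeasurableSet (fo s r) := by
  have h0 : Measurable fun x : E 3 => x 0 := by fun_prop
  have h1 : Measurable fun x : E 3 => x 1 := by fun_prop
  have h2 : Measurable fun x : E 3 => x 2 := by fun_prop
  refine (measurableSet_lt measurable_const (h0.const_mul _)).inter
    ((measurableSet_lt measurable_const (h1.const_mul _)).inter
    ((measurableSet_lt measurable_const (h2.const_mul _)).inter ?_))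
  exact measurableSet_eq_fun (((h0.const_mul _).add (h1.const_mul _)).add (h2.const_mul _))
    measurable_const

lemma oct_closed (r : ℝ) : IsClosed (oct r) := by
  have h0 : Continuous fun x : E 3 => |x 0| + |x 1| + |x 2| := by fun_prop
  exact isClosed_le h0 continuous_const

lemma fo_sub {r : ℝ} (hr : 0 < r) (s : Bool × Bool × Bool) : fo s r ⊆ frontier (oct r) := by
  rintro x ⟨a0, a1, a2, hs⟩
  have key : ∀ (b : Bool) (y : ℝ), 0 < sg b * y → sg b * y = |y| := by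
    intro b y hb
    cases b <;> simp [sg] at hb ⊢
    · rw [abs_of_neg hb]
    · rw [abs_of_pos hb]
  rw [key _ _ a0, key _ _ a1, key _ _ a2] at hs
  rw [(oct_closed r).frontier_eq]
  refine ⟨hs.le, fun hi => ?_⟩
  rw [mem_interior_iff_mem_nhds] at hi
  have h1 : Filter.Tendsto (fun k : ℕ => (1 + 1 / ((k : ℝ) + 1)) • x) Filter.atTop (nhds x) := by
    have h2 := (tendsto_one_div_add_atTop_nhds_zero_nat (𝕜 := ℝ)).const_add 1
    have h3 := h2.smul_const x
    simpa using h3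
  obtain ⟨k, hk⟩ := (h1.eventually hi).exists
  have h4 : |(1 + 1 / ((k : ℝ) + 1)) * x 0| + |(1 + 1 / ((k : ℝ) + 1)) * x 1| +
      |(1 + 1 / ((k : ℝ) + 1)) * x 2| ≤ r := hk
  have h5 : 0 < 1 / ((k : ℝ) + 1) := by positivity
  rw [abs_mul, abs_mul, abs_mul, abs_of_pos (by positivity : 0 < 1 + 1 / ((k : ℝ) + 1))] at h4
  nlinarith

/-- the surface area -/
noncomputable def surf (K : Set (E 3)) : ℝ≥0∞ := μHE[2] (frontier K)

lemma surf_image (A : E 3 ≃ᵃ[ℝ] E 3) (K : Set (E 3)) :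
    surf (A '' K) = (μHE[2] : Measure (E 3)) (A '' frontier K) := by
  unfold surf
  congr 1
  exact (A.toHomeomorphOfFiniteDimensional.image_frontier K).symm

theorem surf_oct (A : E 3 ≃ᵃ[ℝ] E 3) {r : ℝ} (hr : 0 < r) :
    ENNReal.ofReal (G8 (A.linear (ee 0)) (A.linear (ee 1)) (A.linear (ee 2))) *
      (ENNReal.ofReal (r ^ 2) * tau) ≤ surf (A '' oct r) := by
  rw [surf_image]
  have h1 : (⋃ s : Bool × Bool × Bool, A '' fo s r) ⊆ A '' frontier (oct r) :=
    iUnion_subset fun s => image_mono (fo_sub hr s)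
  refine le_trans (le_of_eq ?_) (measure_mono h1)
  rw [measure_iUnion]
  · rw [tsum_fintype]
    have h2 : ∀ s : Bool × Bool × Bool, (μHE[2] : Measure (E 3)) (A '' fo s r) =
        ENNReal.ofReal (gr (sg s.2.1 • A.linear (ee 1) - sg s.1 • A.linear (ee 0))
          (sg s.2.2 • A.linear (ee 2) - sg s.1 • A.linear (ee 0))) *
          (ENNReal.ofReal (r ^ 2) * tau) := by
      intro s
      rw [fo_eq hr, vol_fs A r (sg_sq _) (sg_sq _), vol_smul _ hr.le]
      rfl
    simp_rw [h2]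
    rw [← Finset.sum_mul, ← ENNReal.ofReal_sum_of_nonneg]
    · rfl
    · intro s _
      exact Real.sqrt_nonneg _
  · intro s t hst
    exact (Set.disjoint_image_iff A.injective).2 (fo_disj hst)
  · intro s
    exact (A.toHomeomorphOfFiniteDimensional.measurableEmbedding.measurableSet_image).2
      (fo_meas s r)

end Pool.Agent.Q157.AS
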