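import Pool.Agent.Q157.AS.B

set_option autoImplicit false

open MeasureTheory Measure Set Module
open scoped Pointwise ENNReal

namespace Pool.Agent.Q157.AS

/-- the truncated octahedron -/
def tr (δ : ℝ) : Set (E 3) :=
  {x | |x 0| + |x 1| + |x 2| ≤ 1 ∧ |x 0| ≤ 1 - δ ∧ |x 1| ≤ 1 - δ ∧ |x 2| ≤ 1 - δ}

/-- a square facet -/
noncomputable def sq (a b c : E 3) (t δ : ℝ) : Set (E 3) :=
  (fun z => par a b z + t • c) '' Dm δ

lemma vol_sq (A : E 3 ≃ᵃ[ℝ] E 3) {a b : E 3} (h : LinearIndependent ℝ ![a, b]) (c : E 3) (t : ℝ)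
    {δ : ℝ} (hδ : 0 < δ) :
    (μHE[2] : Measure (E 3)) (A '' sq a b c t δ) ≤
      ENNReal.ofReal (gr (A.linear a) (A.linear b) * (4 * δ ^ 2)) * tau := by
  unfold sq
  rw [facet A _ _ _ h, ENNReal.ofReal_mul
    (show 0 ≤ gr (A.linear a) (A.linear b) from Real.sqrt_nonneg _), mul_assoc]
  gcongr
  exact vol_Dm hδ

lemma ind (i j : Fin 3) (h : i ≠ j) : LinearIndependent ℝ ![ee i, ee j] := by
  rw [LinearIndependent.pair_iff]
  intro x y hxy
  have k1 := congrArg (fun v : E 3 => v i) hxy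
  have k2 := congrArg (fun v : E 3 => v j) hxy
  simp [ee, h, h.symm] at k1 k2
  exact ⟨k1, k2⟩

lemma exists_sg (y : ℝ) : ∃ b : Bool, sg b * y = |y| := by
  rcases le_total 0 y with h | h
  · exact ⟨true, by simp [sg, abs_of_nonneg h]⟩
  · exact ⟨false, by simp [sg, abs_of_nonpos h]⟩

lemma mem_frontier_tr {δ : ℝ} {x : E 3} (hx : x ∈ frontier (tr δ)) :
    x ∈ tr δ ∧ (|x 0| + |x 1| + |x 2| = 1 ∨ |x 0| = 1 - δ ∨ |x 1| = 1 - δ ∨ |x 2| = 1 - δ) := by
  have c0 : Continuous fun x : E 3 => |x 0| := by fun_prop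
  have c1 : Continuous fun x : E 3 => |x 1| := by fun_prop
  have c2 : Continuous fun x : E 3 => |x 2| := by fun_prop
  have hcl : IsClosed (tr δ) := by
    exact (isClosed_le ((c0.add c1).add c2) continuous_const).inter
      ((isClosed_le c0 continuous_const).inter
      ((isClosed_le c1 continuous_const).inter (isClosed_le c2 continuous_const)))
  rw [hcl.frontier_eq] at hx
  refine ⟨hx.1, ?_⟩
  by_contra hcon
  push Not at hcon
  obtain ⟨h1, h2, h3, h4⟩ := hcon
  apply hx.2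
  have ho : IsOpen {x : E 3 | |x 0| + |x 1| + |x 2| < 1 ∧ |x 0| < 1 - δ ∧ |x 1| < 1 - δ ∧
      |x 2| < 1 - δ} :=
    (isOpen_lt ((c0.add c1).add c2) continuous_const).inter
      ((isOpen_lt c0 continuous_const).inter
      ((isOpen_lt c1 continuous_const).inter (isOpen_lt c2 continuous_const)))
  refine interior_maximal ?_ ho ⟨lt_of_le_of_ne hx.1.1 h1, lt_of_le_of_ne hx.1.2.1 h2,
    lt_of_le_of_ne hx.1.2.2.1 h3, lt_of_le_of_ne hx.1.2.2.2 h4⟩
  rintro y ⟨a, b, c, d⟩
  exact ⟨a.le, b.le, c.le, d.le⟩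

lemma mem_sq {a b c : E 3} {t δ : ℝ} {x : E 3} (s1 s2 : ℝ) (h : |s1| + |s2| ≤ δ)
    (hx : x = s1 • a + s2 • b + t • c) : x ∈ sq a b c t δ := by
  refine ⟨WithLp.toLp 2 ![s1, s2], h, ?_⟩
  rw [hx]
  change par a b _ + t • c = _
  rw [par_app]
  rfl

lemma frontier_tr {δ : ℝ} : frontier (tr δ) ⊆
    (⋃ s : Bool × Bool × Bool, fs (sg s.1) (sg s.2.1) (sg s.2.2) 1 (Hx δ)) ∪
    ((sq (ee 1) (ee 2) (ee 0) (1 - δ) δ ∪ sq (ee 1) (ee 2) (ee 0) (-(1 - δ)) δ) ∪
    ((sq (ee 2) (ee 0) (ee 1) (1 - δ) δ ∪ sq (ee 2) (ee 0) (ee 1) (-(1 - δ)) δ) ∪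
    (sq (ee 0) (ee 1) (ee 2) (1 - δ) δ ∪ sq (ee 0) (ee 1) (ee 2) (-(1 - δ)) δ))) := by
  intro x hx
  obtain ⟨⟨h1, h2, h3, h4⟩, h⟩ := mem_frontier_tr hx
  have n0 := abs_nonneg (x 0)
  have n1 := abs_nonneg (x 1)
  have n2 := abs_nonneg (x 2)
  rcases h with h | h | h | h
  · left
    obtain ⟨b0, hb0⟩ := exists_sg (x 0)
    obtain ⟨b1, hb1⟩ := exists_sg (x 1)
    obtain ⟨b2, hb2⟩ := exists_sg (x 2)
    refine mem_iUnion.2 ⟨(b0, b1, b2), ?_⟩
    rw [mem_fs (sg_sq _) (sg_sq _) (sg_sq _)]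
    simp only
    rw [hb0, hb1, hb2]
    refine ⟨?_, h⟩
    simp only [Hx, mem_ofPred_eq]
    simp only [Matrix.cons_val_zero, Matrix.cons_val_one]
    refine ⟨n1, n2, by linarith, h3, h4, by linarith⟩
  · right; left
    have k : |x 1| + |x 2| ≤ δ := by linarith
    rcases abs_cases (x 0) with ⟨e, _⟩ | ⟨e, _⟩
    · left
      refine mem_sq (x 1) (x 2) k ?_
      ext i
      fin_cases i <;> simp [ee] <;> linarith
    · right
      refine mem_sq (x 1) (x 2) k ?_
      ext i
      fin_cases i <;> simp [ee] <;> linarith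
  · right; right; left
    have k : |x 2| + |x 0| ≤ δ := by linarith
    rcases abs_cases (x 1) with ⟨e, _⟩ | ⟨e, _⟩
    · left
      refine mem_sq (x 2) (x 0) k ?_
      ext i
      fin_cases i <;> simp [ee] <;> linarith
    · right
      refine mem_sq (x 2) (x 0) k ?_
      ext i
      fin_cases i <;> simp [ee] <;> linarith
  · right; right; right
    have k : |x 0| + |x 1| ≤ δ := by linarith
    rcases abs_cases (x 2) with ⟨e, _⟩ | ⟨e, _⟩
    · left
      refine mem_sq (x 0) (x 1) k ?_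
      ext i
      fin_cases i <;> simp [ee] <;> linarith
    · right
      refine mem_sq (x 0) (x 1) k ?_
      ext i
      fin_cases i <;> simp [ee] <;> linarith

theorem surf_tr (A : E 3 ≃ᵃ[ℝ] E 3) {δ : ℝ} (hδ : 0 < δ) (hδ2 : δ < 1 / 2) :
    surf (A '' tr δ) ≤
      ENNReal.ofReal (G8 (A.linear (ee 0)) (A.linear (ee 1)) (A.linear (ee 2))) *
      (ENNReal.ofReal (1 - δ ^ 2) * tau) := by
  set v0 := A.linear (ee 0) with hv0
  set v1 := A.linear (ee 1) with hv1
  set v2 := A.linear (ee 2) with hv2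
  have hg0 : 0 ≤ gr v1 v2 := Real.sqrt_nonneg _
  have hg1 : 0 ≤ gr v2 v0 := Real.sqrt_nonneg _
  have hg2 : 0 ≤ gr v0 v1 := Real.sqrt_nonneg _
  have hG := G8_ge v0 v1 v2
  have hGn : 0 ≤ G8 v0 v1 v2 := by linarith
  rw [surf_image]
  refine (measure_mono (image_mono (frontier_tr (δ := δ)))).trans ?_
  rw [image_union, image_union, image_union, image_union, image_union, image_union,
    image_iUnion]
  have m1 : (μHE[2] : Measure (E 3))
      (⋃ s : Bool × Bool × Bool, A '' fs (sg s.1) (sg s.2.1) (sg s.2.2) 1 (Hx δ)) ≤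
      ENNReal.ofReal (G8 v0 v1 v2 * (1 - 3 * δ ^ 2)) * tau := by
    refine (measure_iUnion_le _).trans ?_
    rw [tsum_fintype]
    have h2 : ∀ s : Bool × Bool × Bool, (μHE[2] : Measure (E 3))
        (A '' fs (sg s.1) (sg s.2.1) (sg s.2.2) 1 (Hx δ)) ≤
        ENNReal.ofReal (gr (sg s.2.1 • v1 - sg s.1 • v0) (sg s.2.2 • v2 - sg s.1 • v0)) *
          (ENNReal.ofReal (1 - 3 * δ ^ 2) * tau) := by
      intro s
      rw [vol_fs A 1 (sg_sq _) (sg_sq _)]
      gcongr
      exact vol_Hx hδ hδ2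
    refine (Finset.sum_le_sum fun s _ => h2 s).trans ?_
    have hn : ∀ s ∈ (Finset.univ : Finset (Bool × Bool × Bool)),
        0 ≤ gr (sg s.2.1 • v1 - sg s.1 • v0) (sg s.2.2 • v2 - sg s.1 • v0) :=
      fun s _ => Real.sqrt_nonneg _
    rw [← Finset.sum_mul, ← ENNReal.ofReal_sum_of_nonneg hn,
      ENNReal.ofReal_mul hGn, mul_assoc]
    exact le_rfl
  have q0 : ∀ t, (μHE[2] : Measure (E 3)) (A '' sq (ee 1) (ee 2) (ee 0) t δ) ≤
      ENNReal.ofReal (gr v1 v2 * (4 * δ ^ 2)) * tau := fun t =>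
    vol_sq A (ind 1 2 (by decide)) _ t hδ
  have q1 : ∀ t, (μHE[2] : Measure (E 3)) (A '' sq (ee 2) (ee 0) (ee 1) t δ) ≤
      ENNReal.ofReal (gr v2 v0 * (4 * δ ^ 2)) * tau := fun t =>
    vol_sq A (ind 2 0 (by decide)) _ t hδ
  have q2 : ∀ t, (μHE[2] : Measure (E 3)) (A '' sq (ee 0) (ee 1) (ee 2) t δ) ≤
      ENNReal.ofReal (gr v0 v1 * (4 * δ ^ 2)) * tau := fun t =>
    vol_sq A (ind 0 1 (by decide)) _ t hδ
  have hd : 0 ≤ 1 - 3 * δ ^ 2 := by nlinarith
  refine (measure_union_le _ _).trans ?_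
  refine (add_le_add m1 ((measure_union_le _ _).trans (add_le_add
    ((measure_union_le _ _).trans (add_le_add (q0 _) (q0 _)))
    ((measure_union_le _ _).trans (add_le_add
      ((measure_union_le _ _).trans (add_le_add (q1 _) (q1 _)))
      ((measure_union_le _ _).trans (add_le_add (q2 _) (q2 _)))))))).trans ?_
  have e : ENNReal.ofReal (G8 v0 v1 v2) * (ENNReal.ofReal (1 - δ ^ 2) * tau) =
      ENNReal.ofReal (G8 v0 v1 v2 * (1 - δ ^ 2)) * tau := by
    rw [ENNReal.ofReal_mul hGn, mul_assoc]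
  rw [e, ← add_mul, ← add_mul, ← add_mul, ← add_mul, ← add_mul, ← add_mul]
  gcongr
  rw [← ENNReal.ofReal_add (by positivity) (by positivity),
    ← ENNReal.ofReal_add (by positivity) (by positivity),
    ← ENNReal.ofReal_add (by positivity) (by positivity),
    ← ENNReal.ofReal_add (by positivity) (by positivity),
    ← ENNReal.ofReal_add (by positivity) (by positivity),
    ← ENNReal.ofReal_add (by positivity) (by positivity)]
  apply ENNReal.ofReal_le_ofReal
  nlinarith [mul_le_mul_of_nonneg_left hG (by positivity : 0 ≤ 2 * δ ^ 2)]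

/-! ### volumes -/

lemma oct_smul {r : ℝ} (hr : 0 < r) : oct r = r • oct 1 := by
  ext x
  constructor
  · intro hx
    refine ⟨r⁻¹ • x, ?_, smul_inv_smul₀ hr.ne' x⟩
    simp only [oct, mem_ofPred_eq, PiLp.smul_apply, smul_eq_mul, abs_mul] at hx ⊢
    rw [abs_of_pos (inv_pos.2 hr), ← mul_add, ← mul_add, inv_mul_le_iff₀ hr, mul_one]
    exact hx
  · rintro ⟨y, hy, rfl⟩
    simp only [oct, mem_ofPred_eq, PiLp.smul_apply, smul_eq_mul, abs_mul] at hy ⊢
    rw [abs_of_pos hr]
    nlinarith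

lemma vol_oct {r : ℝ} (hr : 0 < r) :
    volume (oct r) = ENNReal.ofReal (r ^ 3) * volume (oct 1) := by
  rw [oct_smul hr, Measure.addHaar_smul, finrank_euclideanSpace_fin,
    abs_of_nonneg (by positivity)]

/-- half an octahedron -/
def hf (s : ℝ) (i : Fin 3) (r : ℝ) : Set (E 3) := {x | x ∈ oct r ∧ 0 < s * x i}

lemma vol_hf (s : ℝ) (i : Fin 3) (r : ℝ) : 2 * volume (hf s i r) ≤ volume (oct r) := by
  have hm : MeasurableSet (hf s i r) := by
    have h1 : Measurable fun x : E 3 => x i := by fun_prop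
    exact (oct_closed r).measurableSet.inter (measurableSet_lt measurable_const (h1.const_mul s))
  have hneg : volume (-hf s i r) = volume (hf s i r) := Measure.measure_neg _ _
  have hd : Disjoint (hf s i r) (-hf s i r) := by
    rw [Set.disjoint_left]
    rintro x ⟨_, h1⟩ ⟨_, h2⟩
    simp only [PiLp.neg_apply, mul_neg] at h2
    linarith
  have hsub : hf s i r ∪ -hf s i r ⊆ oct r := by
    rintro x (h | h)
    · exact h.1
    · have := h.1
      simp only [oct, mem_ofPred_eq, PiLp.neg_apply, abs_neg] at this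
      exact this
  calc 2 * volume (hf s i r) = volume (hf s i r) + volume (-hf s i r) := by rw [hneg, two_mul]
    _ = volume (hf s i r ∪ -hf s i r) := (measure_union hd hm.neg).symm
    _ ≤ volume (oct r) := measure_mono hsub

/-- the pyramid at a vertex -/
def py (s : ℝ) (i : Fin 3) (δ : ℝ) : Set (E 3) := {x | x ∈ oct 1 ∧ 1 - δ < s * x i}

lemma py_sub {s : ℝ} (hs : s = 1 ∨ s = -1) (i : Fin 3) {δ : ℝ} (hδ1 : δ ≤ 1) :
    py s i δ ⊆ (fun y => (s * (1 - δ)) • ee i + y) '' hf s i δ := by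
  rintro x ⟨h1, h2⟩
  refine ⟨x - (s * (1 - δ)) • ee i, ⟨?_, ?_⟩, by simp⟩
  · simp only [oct, mem_ofPred_eq] at h1 ⊢
    have key : |x i - s * (1 - δ)| = |x i| - (1 - δ) := by
      rcases hs with rfl | rfl
      · rw [abs_of_pos (by linarith : 0 < x i), abs_of_nonneg (by linarith)]
        ring
      · rw [abs_of_neg (by linarith : x i < 0), abs_of_nonpos (by linarith)]
        ring
    fin_cases i
    · simp [ee] at key ⊢
      linarith
    · simp [ee] at key ⊢
      linarith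
    · simp [ee] at key ⊢
      linarith
  · simp only [PiLp.sub_apply, PiLp.smul_apply, ee, smul_eq_mul]
    rcases hs with rfl | rfl <;> simp <;> linarith

lemma vol_py {s : ℝ} (hs : s = 1 ∨ s = -1) (i : Fin 3) {δ : ℝ} (hδ : 0 < δ) (hδ1 : δ ≤ 1) :
    2 * volume (py s i δ) ≤ ENNReal.ofReal (δ ^ 3) * volume (oct 1) := by
  calc 2 * volume (py s i δ) ≤ 2 * volume ((fun y => (s * (1 - δ)) • ee i + y) '' hf s i δ) := by
        gcongr
        exact py_sub hs i hδ1
    _ = 2 * volume (hf s i δ) := by rw [image_add_left, measure_preimage_add]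
    _ ≤ volume (oct δ) := vol_hf s i δ
    _ = _ := vol_oct hδ

lemma oct_cover (δ : ℝ) : oct 1 ⊆ tr δ ∪ ((py 1 0 δ ∪ py (-1) 0 δ) ∪
    ((py 1 1 δ ∪ py (-1) 1 δ) ∪ (py 1 2 δ ∪ py (-1) 2 δ))) := by
  intro x hx
  by_cases h0 : |x 0| ≤ 1 - δ
  · by_cases h1 : |x 1| ≤ 1 - δ
    · by_cases h2 : |x 2| ≤ 1 - δ
      · exact Or.inl ⟨hx, h0, h1, h2⟩
      · right; right; right
        push Not at h2
        rcases abs_cases (x 2) with ⟨e, _⟩ | ⟨e, _⟩
        · left; exact ⟨hx, by linarith⟩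
        · right; exact ⟨hx, by linarith⟩
    · right; right; left
      push Not at h1
      rcases abs_cases (x 1) with ⟨e, _⟩ | ⟨e, _⟩
      · left; exact ⟨hx, by linarith⟩
      · right; exact ⟨hx, by linarith⟩
  · right; left
    push Not at h0
    rcases abs_cases (x 0) with ⟨e, _⟩ | ⟨e, _⟩
    · left; exact ⟨hx, by linarith⟩
    · right; exact ⟨hx, by linarith⟩

lemma oct_compact (r : ℝ) : IsCompact (oct r) := by
  refine (isCompact_closedBall (0 : E 3) |r|).of_isClosed_subset (oct_closed r) fun x hx => ?_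
  have hx' : |x 0| + |x 1| + |x 2| ≤ r := hx
  have n0 := abs_nonneg (x 0)
  have n1 := abs_nonneg (x 1)
  have n2 := abs_nonneg (x 2)
  rw [mem_closedBall_zero_iff, EuclideanSpace.norm_eq, Real.sqrt_le_left (abs_nonneg _),
    Fin.sum_univ_three, sq_abs]
  simp only [Real.norm_eq_abs]
  nlinarith

lemma oct_convex (r : ℝ) : Convex ℝ (oct r) := by
  intro x hx y hy a b ha hb hab
  simp only [oct, mem_ofPred_eq, PiLp.add_apply, PiLp.smul_apply, smul_eq_mul] at hx hy ⊢
  have h : ∀ i, |a * x i + b * y i| ≤ a * |x i| + b * |y i| := by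
    intro i
    calc |a * x i + b * y i| ≤ |a * x i| + |b * y i| := abs_add_le _ _
      _ = a * |x i| + b * |y i| := by rw [abs_mul, abs_mul, abs_of_nonneg ha, abs_of_nonneg hb]
  have h0 := h 0
  have h1 := h 1
  have h2 := h 2
  have e : a * r + b * r = r := by rw [← add_mul, hab, one_mul]
  nlinarith [mul_le_mul_of_nonneg_left hx ha, mul_le_mul_of_nonneg_left hy hb]

lemma oct_int {r : ℝ} (hr : 0 < r) : (interior (oct r)).Nonempty := by
  have h0 : Continuous fun x : E 3 => |x 0| + |x 1| + |x 2| := by fun_prop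
  have ho : IsOpen {x : E 3 | |x 0| + |x 1| + |x 2| < r} := isOpen_lt h0 continuous_const
  have hsub : {x : E 3 | |x 0| + |x 1| + |x 2| < r} ⊆ oct r := by
    intro x hx
    have hx' : |x 0| + |x 1| + |x 2| < r := hx
    exact hx'.le
  refine ⟨0, interior_maximal hsub ho ?_⟩
  simpa using hr

lemma tr_convex (δ : ℝ) : Convex ℝ (tr δ) := by
  have h : tr δ = oct 1 ∩ {x : E 3 | ∀ i, x i ∈ Icc (-(1 - δ)) (1 - δ)} := by
    ext x
    simp only [tr, oct, mem_inter_iff, mem_ofPred_eq, mem_Icc, ← abs_le, Fin.forall_fin_succ]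
    simp
  rw [h]
  refine (oct_convex 1).inter fun x hx y hy a b ha hb hab i => ?_
  exact (convex_Icc _ _) (hx i) (hy i) ha hb hab

lemma tr_compact (δ : ℝ) : IsCompact (tr δ) := by
  have c0 : Continuous fun x : E 3 => |x 0| := by fun_prop
  have c1 : Continuous fun x : E 3 => |x 1| := by fun_prop
  have c2 : Continuous fun x : E 3 => |x 2| := by fun_prop
  have hcl : IsClosed (tr δ) := by
    exact (isClosed_le ((c0.add c1).add c2) continuous_const).inter
      ((isClosed_le c0 continuous_const).inter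
      ((isClosed_le c1 continuous_const).inter (isClosed_le c2 continuous_const)))
  exact (oct_compact 1).of_isClosed_subset hcl fun x hx => hx.1

lemma tr_int {δ : ℝ} (hδ2 : δ < 1 / 2) : (interior (tr δ)).Nonempty := by
  obtain ⟨x, hx⟩ := oct_int (r := 1 / 2) (by norm_num)
  refine ⟨x, interior_mono (fun y hy => ?_) hx⟩
  have hy' : |y 0| + |y 1| + |y 2| ≤ 1 / 2 := hy
  have n0 := abs_nonneg (y 0)
  have n1 := abs_nonneg (y 1)
  have n2 := abs_nonneg (y 2)
  exact ⟨by linarith, by linarith, by linarith, by linarith⟩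

theorem vol_cmp {δ b : ℝ} (hδ : 0 < δ) (hδ2 : δ < 1 / 2) (hb : 0 < b)
    (h : b ^ 3 < 1 - 3 * δ ^ 3) : volume (oct b) < volume (tr δ) := by
  have hV : volume (oct 1) ≠ ⊤ := (oct_compact 1).measure_lt_top.ne
  have hV0 : 0 < volume (oct 1) :=
    Measure.measure_pos_of_nonempty_interior _ (oct_int one_pos)
  have hT : volume (tr δ) ≠ ⊤ := (tr_compact δ).measure_lt_top.ne
  set V := (volume (oct 1)).toReal with hVd
  have hVp : 0 < V := ENNReal.toReal_pos hV0.ne' hV
  have hp : ∀ s : ℝ, (s = 1 ∨ s = -1) → ∀ i, volume (py s i δ) ≤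
      ENNReal.ofReal (δ ^ 3 / 2 * V) := by
    intro s hs i
    have h1 := vol_py hs i hδ (by linarith)
    have hfin : volume (py s i δ) ≠ ⊤ :=
      ne_top_of_le_ne_top hV (measure_mono fun x hx => hx.1)
    have h2 := ENNReal.toReal_mono (ENNReal.mul_ne_top ENNReal.ofReal_ne_top hV) h1
    rw [ENNReal.toReal_mul, ENNReal.toReal_mul, ENNReal.toReal_ofReal (by positivity),
      ENNReal.toReal_ofNat] at h2
    rw [← ENNReal.ofReal_toReal hfin]
    apply ENNReal.ofReal_le_ofReal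
    linarith
  have h1 := measure_mono (μ := (volume : Measure (E 3))) (oct_cover δ)
  have q := hp 1 (Or.inl rfl)
  have q' := hp (-1) (Or.inr rfl)
  have h2 : volume (oct 1) ≤ volume (tr δ) + ENNReal.ofReal (3 * δ ^ 3 * V) := by
    refine h1.trans ((measure_union_le _ _).trans ?_)
    gcongr
    refine ((measure_union_le _ _).trans (add_le_add
      ((measure_union_le _ _).trans (add_le_add (q 0) (q' 0)))
      ((measure_union_le _ _).trans (add_le_add
        ((measure_union_le _ _).trans (add_le_add (q 1) (q' 1)))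
        ((measure_union_le _ _).trans (add_le_add (q 2) (q' 2))))))).trans ?_
    rw [← ENNReal.ofReal_add (by positivity) (by positivity),
      ← ENNReal.ofReal_add (by positivity) (by positivity),
      ← ENNReal.ofReal_add (by positivity) (by positivity)]
    apply ENNReal.ofReal_le_ofReal
    linarith
  have h3 := ENNReal.toReal_mono (ENNReal.add_ne_top.2 ⟨hT, ENNReal.ofReal_ne_top⟩) h2
  rw [ENNReal.toReal_add hT ENNReal.ofReal_ne_top, ENNReal.toReal_ofReal (by positivity)] at h3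
  rw [vol_oct hb, ← ENNReal.toReal_lt_toReal (ENNReal.mul_ne_top ENNReal.ofReal_ne_top hV) hT,
    ENNReal.toReal_mul, ENNReal.toReal_ofReal (by positivity)]
  nlinarith

end Pool.Agent.Q157.AS
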